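import Pool.Agent.X11.RotN
import Pool.Agent.H568.SP.Moment
import Pool.Agent.H262R2.UK.Basic

/-!
# MP_7c82b6_nt, Q1 (Rotkiewicz's limit): the ratio `N(p) / N̄(p)` tends to `1`

`IsCF p n l` says that the list `l` is the normalised simple continued fraction expansion of `p/n`;
`MSet p`, `MbarSet p` are the sets `M_p`, `M̄_p`, and `N p`, `Nbar p` their cardinalities
(all in `Pool/Agent/X11/RotCF.lean` and `Pool/Agent/X11/RotN.lean`).
-/

namespace Pool.Agent.Results.MP_7c82b6_nt.RatioTendsToOne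

open Finset Filter Topology Pool.Agent.X11.Rot

theorem delta_bound (m : ℕ) (hm : 1 ≤ m) :
    |((N (2 * m + 1) : ℝ) - Nbar (2 * m + 1)) / Nat.totient (2 * m + 1)| ≤
      1224 * ((2 * m + 1 : ℕ) : ℝ) ^ (-(1 / 4) : ℝ) := by
  set p : ℕ := 2 * m + 1 with hpdef
  have hp3 : 3 ≤ p := by omega
  have hp1 : (1 : ℝ) ≤ p := by exact_mod_cast (by omega : 1 ≤ p)
  have hp0 : (0 : ℝ) < p := by linarith
  have hφ : (0 : ℝ) < Nat.totient p := by exact_mod_cast Nat.totient_pos.2 (by omega)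
  rcases (by omega : p % 4 = 1 ∨ p % 4 = 3) with h4 | h4
  · rw [eq_of_one_mod_four h4, sub_self, zero_div, abs_zero]
    positivity
  · have h1 := Nbar_sub_N (m := m) h4
    have h1' : (N p : ℝ) - Nbar p = -(2 * ∑ n ∈ Icc 1 m, ((jacobiSym (n : ℤ) p : ℤ) : ℝ)) := by
      have := congrArg (fun z : ℤ => (z : ℝ)) h1
      push_cast at this
      rw [← hpdef] at this
      linarith
    have h2 := Pool.Agent.H568.SP.jac_sum_le p (by omega) ⟨p - 1, by
      have := J_sub (p := p) (n := 1) (by omega)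
      rw [J_neg_one_three h4] at this
      simpa [J] using this⟩ m
    have h3 := Pool.Agent.H262R2.UK.rat_le_log p (by omega)
    have hx8 : (1 : ℝ) ≤ (p : ℝ) ^ (1 / 8 : ℝ) := Real.one_le_rpow hp1 (by norm_num)
    have hlog : Real.log p ≤ 8 * (p : ℝ) ^ (1 / 8 : ℝ) := by
      have := Real.log_le_rpow_div hp0.le (by norm_num : (0 : ℝ) < 1 / 8)
      linarith
    have hlog0 : 0 ≤ Real.log p := Real.log_nonneg hp1
    have hl2 := Real.log_two_gt_d9
    have h5 : Real.log p / Real.log 2 + 1 ≤ 17 * (p : ℝ) ^ (1 / 8 : ℝ) := by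
      have : Real.log p / Real.log 2 ≤ 16 * (p : ℝ) ^ (1 / 8 : ℝ) := by
        rw [div_le_iff₀ (by linarith)]
        nlinarith
      linarith
    have h6 : 1 + Real.log p ≤ 9 * (p : ℝ) ^ (1 / 8 : ℝ) := by linarith
    have h7 : (p : ℝ) / Nat.totient p ≤ 17 * (p : ℝ) ^ (1 / 8 : ℝ) := by
      refine le_trans ?_ h5
      exact h3
    rw [h1', abs_div, abs_neg, abs_mul, abs_of_pos hφ, abs_of_pos (by norm_num : (0 : ℝ) < 2)]
    have hs : (p : ℝ) ^ (1 / 8 : ℝ) * (p : ℝ) ^ (1 / 8 : ℝ) = (p : ℝ) ^ (1 / 4 : ℝ) := by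
      rw [← Real.rpow_add hp0]; norm_num
    have hsq : Real.sqrt p = (p : ℝ) ^ (1 / 2 : ℝ) := Real.sqrt_eq_rpow _
    calc 2 * |∑ n ∈ Icc 1 m, ((jacobiSym (n : ℤ) p : ℤ) : ℝ)| / (Nat.totient p : ℝ)
        ≤ 2 * (4 * Real.sqrt p * (9 * (p : ℝ) ^ (1 / 8 : ℝ))) / (Nat.totient p : ℝ) := by
          apply div_le_div_of_nonneg_right _ hφ.le
          apply mul_le_mul_of_nonneg_left _ (by norm_num)
          refine h2.trans ?_
          exact mul_le_mul_of_nonneg_left h6 (by positivity)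
      _ = 72 * Real.sqrt p * (p : ℝ) ^ (1 / 8 : ℝ) / p * ((p : ℝ) / Nat.totient p) := by
          field_simp
          ring
      _ ≤ 72 * Real.sqrt p * (p : ℝ) ^ (1 / 8 : ℝ) / p * (17 * (p : ℝ) ^ (1 / 8 : ℝ)) :=
          mul_le_mul_of_nonneg_left h7 (by positivity)
      _ = 1224 * (Real.sqrt p * ((p : ℝ) ^ (1 / 8 : ℝ) * (p : ℝ) ^ (1 / 8 : ℝ)) / p) := by
          ring
      _ = 1224 * (p : ℝ) ^ (-(1 / 4) : ℝ) := by
          rw [hs, hsq, ← Real.rpow_add hp0]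
          congr 1
          rw [div_eq_iff hp0.ne']
          nth_rewrite 3 [← Real.rpow_one (p : ℝ)]
          rw [← Real.rpow_add hp0]
          norm_num

theorem delta_tendsto : Tendsto (fun m : ℕ =>
    ((N (2 * m + 1) : ℝ) - Nbar (2 * m + 1)) / Nat.totient (2 * m + 1)) atTop (𝓝 0) := by
  apply squeeze_zero_norm' (a := fun m : ℕ => 1224 * ((2 * m + 1 : ℕ) : ℝ) ^ (-(1 / 4) : ℝ))
  · filter_upwards [eventually_ge_atTop 1] with m hm
    exact delta_bound m hm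
  · have h1 : Tendsto (fun m : ℕ => ((2 * m + 1 : ℕ) : ℝ)) atTop atTop := by
      apply tendsto_natCast_atTop_atTop.comp
      apply tendsto_atTop_mono (f := fun m => m) _ tendsto_id
      intro m; omega
    have h2 := (tendsto_rpow_neg_atTop (by norm_num : (0 : ℝ) < 1 / 4)).comp h1
    simpa using h2.const_mul 1224

/-- **Rotkiewicz's limit equals one.**  (i) every `p/n` with `0 < n < p` has exactly one
normalised expansion, so that the sets `M_p`, `M̄_p` are well defined; (ii) for `p ≡ 3 (mod 4)`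
one has the exact formulas `N̄(p) - N(p) = 2 ∑_{0 < n < p/2} (n/p)` and `N(p) + N̄(p) = φ(p)`;
(iii) `N(p) / N̄(p) → 1` as `p → ∞` through the odd integers `p = 2 m + 1`. -/
theorem result :
    (∀ p n : ℕ, 0 < n → n < p → ∃! l : List ℕ, IsCF p n l) ∧
    (∀ m : ℕ, (2 * m + 1) % 4 = 3 →
      (Nbar (2 * m + 1) : ℤ) - N (2 * m + 1) =
        2 * ∑ n ∈ Finset.Icc 1 m, jacobiSym (n : ℤ) (2 * m + 1) ∧
      N (2 * m + 1) + Nbar (2 * m + 1) = Nat.totient (2 * m + 1)) ∧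
    Tendsto (fun m : ℕ => (N (2 * m + 1) : ℝ) / (Nbar (2 * m + 1) : ℝ)) atTop (𝓝 1) := by
  refine ⟨fun p n h1 h2 => ⟨cf p n, isCF_cf h1 h2, fun l hl => (isCF_iff h1 h2 l).1 hl⟩,
    fun m hm => ⟨Nbar_sub_N hm, N_add_Nbar _ (by omega)⟩, ?_⟩
  have h := delta_tendsto
  have h2 : Tendsto (fun m : ℕ =>
      (1 + ((N (2 * m + 1) : ℝ) - Nbar (2 * m + 1)) / Nat.totient (2 * m + 1)) /
      (1 - ((N (2 * m + 1) : ℝ) - Nbar (2 * m + 1)) / Nat.totient (2 * m + 1))) atTop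
      (𝓝 ((1 + 0) / (1 - 0))) := by
    apply Tendsto.div
    · exact tendsto_const_nhds.add h
    · exact tendsto_const_nhds.sub h
    · norm_num
  rw [show ((1 : ℝ) + 0) / (1 - 0) = 1 by norm_num] at h2
  refine h2.congr' ?_
  filter_upwards [eventually_ge_atTop 1] with m hm
  have hφ : (0 : ℝ) < Nat.totient (2 * m + 1) := by exact_mod_cast Nat.totient_pos.2 (by omega)
  have hs : (N (2 * m + 1) : ℝ) + Nbar (2 * m + 1) = Nat.totient (2 * m + 1) := by
    exact_mod_cast N_add_Nbar (2 * m + 1) (by omega)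
  have e1 : 1 + ((N (2 * m + 1) : ℝ) - Nbar (2 * m + 1)) / Nat.totient (2 * m + 1) =
      2 * N (2 * m + 1) / Nat.totient (2 * m + 1) := by
    rw [eq_div_iff hφ.ne', add_mul, div_mul_cancel₀ _ hφ.ne', one_mul, ← hs]; ring
  have e2 : 1 - ((N (2 * m + 1) : ℝ) - Nbar (2 * m + 1)) / Nat.totient (2 * m + 1) =
      2 * Nbar (2 * m + 1) / Nat.totient (2 * m + 1) := by
    rw [eq_div_iff hφ.ne', sub_mul, div_mul_cancel₀ _ hφ.ne', one_mul, ← hs]; ring
  rw [e1, e2, div_div_div_cancel_right₀ hφ.ne', mul_div_mul_left _ _ (by norm_num)]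

end Pool.Agent.Results.MP_7c82b6_nt.RatioTendsToOne
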